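import Pool.Agent.Pet19.ZFinal

/-!
# Ext over the mod 2 Steenrod algebra vanishes in bidegree `(s,t)` when `alpha(t) + beta(t) > 2 s`

Here `alpha(t)` is the number of ones in the binary expansion of `t`, `beta(t)` the number of blocks of
consecutive ones; `alpha(t) + beta(t)` is the number of ones of the bitwise or of `t` and `2 t`.
The cobar complex is the one of the frozen statement S14069, verbatim.
-/

set_option autoImplicit false
open MvPolynomial

namespace Pool.Agent.Results.MP_dbb2d3_gt.DigitBlockVanishing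

theorem result :
    ∀ s t : ℕ, 2 * s < (Nat.digits 2 (t ||| (2 * t))).count 1 →
      ∀ p : MvPolynomial (ℕ × ℕ) (ZMod 2),
        p ∈ MvPolynomial.supported (ZMod 2) {v : ℕ × ℕ | v.1 < s} →
        MvPolynomial.IsWeightedHomogeneous (fun v : ℕ × ℕ => 2 ^ (v.2 + 1) - 1) p t →
        (MvPolynomial.aeval (fun v : ℕ × ℕ => (X (v.1 + 1, v.2) : MvPolynomial (ℕ × ℕ) (ZMod 2))) p + p
          + ∑ m ∈ Finset.range s,
              MvPolynomial.aeval (fun v : ℕ × ℕ =>
                if v.1 < m then (X v : MvPolynomial (ℕ × ℕ) (ZMod 2))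
                else if v.1 = m then
                  ∑ a ∈ Finset.range (v.2 + 2),
                    (if a = v.2 + 1 then (1 : MvPolynomial (ℕ × ℕ) (ZMod 2)) else X (m, v.2 - a)) ^ (2 ^ a)
                      * (if a = 0 then (1 : MvPolynomial (ℕ × ℕ) (ZMod 2)) else X (m + 1, a - 1))
                else X (v.1 + 1, v.2)) p = 0) →
        (p = 0 ∨ ∃ n : ℕ, s = n + 1 ∧
          ∃ q ∈ MvPolynomial.supported (ZMod 2) {v : ℕ × ℕ | v.1 < n},
            MvPolynomial.aeval (fun v : ℕ × ℕ => (X (v.1 + 1, v.2) : MvPolynomial (ℕ × ℕ) (ZMod 2))) q + q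
              + ∑ m ∈ Finset.range n,
                  MvPolynomial.aeval (fun v : ℕ × ℕ =>
                    if v.1 < m then (X v : MvPolynomial (ℕ × ℕ) (ZMod 2))
                    else if v.1 = m then
                      ∑ a ∈ Finset.range (v.2 + 2),
                        (if a = v.2 + 1 then (1 : MvPolynomial (ℕ × ℕ) (ZMod 2)) else X (m, v.2 - a)) ^ (2 ^ a)
                          * (if a = 0 then (1 : MvPolynomial (ℕ × ℕ) (ZMod 2)) else X (m + 1, a - 1))
                    else X (v.1 + 1, v.2)) q = p) := by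
  intro s t h p hp hw hd
  have hV := Pool.Agent.Pet19.V_triv s t h
  have := Pool.Agent.Pet19.bridge s t hV p hp hw (by
    rw [Pool.Agent.Pet19.shS_eq]
    unfold Pool.Agent.Pet19.DE
    exact hd)
  rcases this with h0 | ⟨n, hn, q, hq, hqd⟩
  · exact Or.inl h0
  · refine Or.inr ⟨n, hn, q, hq, ?_⟩
    rw [Pool.Agent.Pet19.shS_eq] at hqd
    unfold Pool.Agent.Pet19.DE at hqd
    exact hqd

end Pool.Agent.Results.MP_dbb2d3_gt.DigitBlockVanishing
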